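import Mathlib.ModelTheory.Fraisse
import Mathlib.ModelTheory.ElementaryMaps

/-!
# Externally definable Ramsey arrows
-/

namespace Q202.ExtArrow

open FirstOrder FirstOrder.Language

variable (L : Language.{0, 0})

/-- `binom(D, ā)`: the tuples `f(ā)` for `f : A → D` an embedding, where `ā` is an enumeration of
the finite structure `A`. -/
def tupleCopies {A : Type} [L.Structure A] {n : ℕ} (a : Fin n → A) (D : Type) [L.Structure D] :
    Set (Fin n → D) :=
  {t | ∃ f : A ↪[L] D, t = f ∘ a}

variable {L} {A : Type} [L.Structure A] {n : ℕ} {a : Fin n → A} {M : Type} [L.Structure M]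

/-- The 2-colouring `χ` of `binom(M, ā)` is externally definable: there are an elementary
extension `j : M → N`, a tuple `e` in `N` and parameter-free formulas `φ 0, φ 1` such that for all
`t ∈ binom(M, ā)` and `i < 2`: `χ(t) = i` if and only if `N ⊨ φ i (e, t)`. -/
def ExternallyDefinable (χ : tupleCopies L a M → Fin 2) : Prop :=
  ∃ (N : Type) (_ : L.Structure N) (j : M ↪ₑ[L] N) (k : ℕ) (e : Fin k → N)
    (φ : Fin 2 → L.Formula (Fin k ⊕ Fin n)),
    ∀ (t : tupleCopies L a M) (i : Fin 2),
      χ t = i ↔ (φ i).Realize (Sum.elim e (fun l => j (t.1 l)))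

/-- The substructure `S` of `M` is monochromatic for `χ`: `χ` is constant on `binom(S, ā)`. -/
def Monochromatic (χ : tupleCopies L a M → Fin 2) (S : L.Substructure M) : Prop :=
  ∃ i : Fin 2, ∀ t : tupleCopies L a M, (∃ s ∈ tupleCopies L a S, t.1 = fun l => (s l : M)) →
    χ t = i

variable (a M)

/-- `M →_ext (B)^ā_2`: for every externally definable colouring of `binom(M, ā)` some substructure
of `M` isomorphic to `B` is monochromatic. -/
def Arrow (B : Type) [L.Structure B] : Prop :=
  ∀ χ : tupleCopies L a M → Fin 2, ExternallyDefinable χ →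
    ∃ B' : L.Substructure M, Nonempty (B ≃[L] B') ∧ Monochromatic χ B'

/-- `C →_ext (B)^ā_2` (relative to `M`): for every substructure `C'` of `M` isomorphic to `C` and
every externally definable colouring of `binom(M, ā)`, some substructure of `C'` isomorphic to `B`
is monochromatic. -/
def ArrowFrom (C B : Type) [L.Structure C] [L.Structure B] : Prop :=
  ∀ C' : L.Substructure M, Nonempty (C ≃[L] C') →
    ∀ χ : tupleCopies L a M → Fin 2, ExternallyDefinable χ →
      ∃ B' : L.Substructure M, B' ≤ C' ∧ Nonempty (B ≃[L] B') ∧ Monochromatic χ B'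

end Q202.ExtArrow
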