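import Pool.Agent.Q202.ExtArrow.Defs
import Pool.Agent.Q202.Orb
import Mathlib.Logic.Equiv.Basic
import Mathlib.Logic.Equiv.Bool
import Mathlib.Tactic.FinCases
import Mathlib.Data.Fintype.Card
import Mathlib.ModelTheory.Semantics

namespace Q202.ExtArrow.Example

open FirstOrder FirstOrder.Language Q202.Orb Q202.ExtArrow

/-- The automorphism group of the perfect matching on `ℕ × Bool`. -/
def G : Subgroup (Equiv.Perm (ℕ × Bool)) where
  carrier := {σ | ∀ x y, x.1 = y.1 ↔ (σ x).1 = (σ y).1}
  mul_mem' := by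
    intro a b ha hb x y
    rw [Equiv.Perm.mul_apply, Equiv.Perm.mul_apply, hb, ha]
  one_mem' := fun x y => Iff.rfl
  inv_mem' := by
    intro a ha x y
    rw [ha (a⁻¹ x) (a⁻¹ y)]
    have h : ∀ z, a (a⁻¹ z) = z := fun z => a.apply_symm_apply z
    rw [h, h]

theorem mem_G (σ : Equiv.Perm (ℕ × Bool)) :
    σ ∈ G ↔ ∀ x y, x.1 = y.1 ↔ (σ x).1 = (σ y).1 := Iff.rfl

abbrev M := ℕ × Bool

abbrev Lg : Language.{0, 0} := orbLang G

/-- Transitivity on points. -/
theorem exists_move (m : M) : ∃ g ∈ G, g ((0, false) : M) = m := by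
  obtain ⟨l, b⟩ := m
  refine ⟨Equiv.prodCongr (Equiv.swap 0 l) (if b then Equiv.boolNot else Equiv.refl _), ?_, ?_⟩
  · rw [mem_G]
    rintro ⟨x1, x2⟩ ⟨y1, y2⟩
    simp
  · cases b <;> simp

theorem swap_mem (l : ℕ) : Equiv.swap ((l, false) : M) (l, true) ∈ G := by
  rw [mem_G]
  have h : ∀ x : M, (Equiv.swap ((l, false) : M) (l, true) x).1 = x.1 := by
    intro x
    rcases eq_or_ne x (l, false) with rfl | h1
    · simp
    · rcases eq_or_ne x (l, true) with rfl | h2
      · simp
      · rw [Equiv.swap_apply_of_ne_of_ne h1 h2]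
  intro x y
  rw [h, h]

theorem swap_fix (l : ℕ) (x : M) (hx : x.1 ≠ l) :
    Equiv.swap ((l, false) : M) (l, true) x = x := by
  apply Equiv.swap_apply_of_ne_of_ne
  · rintro rfl; exact hx rfl
  · rintro rfl; exact hx rfl

/-- The substructure with a given underlying set. -/
def sub (s : Set M) : Lg.Substructure M := ⟨s, fun f => nomatch f⟩

/-- The one-point structure. -/
abbrev A : Type := sub {((0, false) : M)}

/-- The edge. -/
abbrev B : Type := sub {((0, false) : M), (0, true)}

/-- The enumeration of the one-point structure. -/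
def a : Fin 1 → A := fun _ => ⟨(0, false), rfl⟩

theorem a_bijective : Function.Bijective a := by
  constructor
  · intro x y _; exact Subsingleton.elim _ _
  · rintro ⟨x, hx⟩
    refine ⟨0, Subtype.ext ?_⟩
    have : x = (0, false) := hx
    exact this.symm

/-- Embedding the point anywhere. -/
def ptEmb (S : Lg.Substructure M) (m : M) (hm : m ∈ S) : A ↪[Lg] S where
  toFun := fun _ => ⟨m, hm⟩
  inj' := by
    rintro ⟨x, hx⟩ ⟨y, hy⟩ _
    apply Subtype.ext
    exact (show x = (0, false) from hx).trans (show y = (0, false) from hy).symm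
  map_fun' := fun f => nomatch f
  map_rel' := by
    intro n r x
    obtain ⟨g, hg, hgm⟩ := exists_move m
    have h1 := (toAut G g hg).map_rel r (fun i => ((x i : A) : M))
    have h2 : (toAut G g hg) ∘ (fun i => ((x i : A) : M)) = fun _ => m := by
      funext i
      have : ((x i : A) : M) = (0, false) := (x i).2
      simp only [Function.comp, this, toAut_apply, hgm]
    rw [h2] at h1
    exact h1

theorem mem_tupleCopies (m : M) : (fun _ : Fin 1 => m) ∈ tupleCopies Lg a M := by
  refine ⟨(sub Set.univ).subtype.comp (ptEmb (sub Set.univ) m trivial), ?_⟩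
  rfl

/-- The tuple `m` as a member of `binom(M, a)`. -/
def tp (m : M) : tupleCopies Lg a M := ⟨fun _ => m, mem_tupleCopies m⟩

/-- Transport of substructures by elements of `G`. -/
noncomputable def subEquiv (s : Set M) (g : Equiv.Perm M) (hg : g ∈ G) :
    sub s ≃[Lg] sub (g '' s) where
  toEquiv := g.image s
  map_fun' := fun f => nomatch f
  map_rel' := by
    intro n r x
    exact (toAut G g hg).map_rel r (fun i => ((x i : sub s) : M))

/-- The edge over `l`. -/
theorem exists_edge (l : ℕ) : Nonempty (B ≃[Lg] sub {((l, false) : M), (l, true)}) := by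
  have hg : Equiv.prodCongr (Equiv.swap 0 l) (Equiv.refl Bool) ∈ G := by
    rw [mem_G]
    rintro ⟨x1, x2⟩ ⟨y1, y2⟩
    simp
  have h := subEquiv {((0, false) : M), (0, true)} _ hg
  have h2 : (Equiv.prodCongr (Equiv.swap 0 l) (Equiv.refl Bool)) '' {((0, false) : M), (0, true)} =
      {((l, false) : M), (l, true)} := by
    rw [Set.image_pair]
    simp
  rw [h2] at h
  exact ⟨h⟩

theorem arrow : Arrow (L := Lg) a M B := by
  classical
  rintro χ ⟨N, _, j, k, e, φ, hφ⟩
  -- some edge is monochromatic
  have key : ∃ l : ℕ, χ (tp (l, false)) = χ (tp (l, true)) := by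
    by_contra hcon
    push Not at hcon
    let f : Bool → Fin (k + 1) → (Fin k ⊕ Fin 1 → (Fin (k + 1) × Bool) ⊕ Fin k) :=
      fun b l => Sum.elim Sum.inr (fun _ => Sum.inl (l, b))
    let θ : Lg.Formula ((Fin (k + 1) × Bool) ⊕ Fin k) := Formula.iInf (fun l : Fin (k + 1) =>
      Formula.not (Formula.iff ((φ 0).relabel (f false l)) ((φ 0).relabel (f true l))))
    have hθ : ∀ (P : Type) [Lg.Structure P] (y : Fin (k + 1) × Bool → P) (x : Fin k → P),
        θ.Realize (Sum.elim y x) ↔ ∀ l : Fin (k + 1),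
          ¬ ((φ 0).Realize (Sum.elim x (fun _ => y (l, false))) ↔
            (φ 0).Realize (Sum.elim x (fun _ => y (l, true)))) := by
      intro P _ y x
      simp only [θ]
      rw [Formula.realize_iInf]
      refine forall_congr' fun l => ?_
      rw [Formula.realize_not, Formula.realize_iff, Formula.realize_relabel,
        Formula.realize_relabel]
      have h1 : ∀ b, Sum.elim y x ∘ f b l = Sum.elim x (fun _ => y (l, b)) := by
        intro b
        funext z
        rcases z with z | z <;> rfl
      rw [h1, h1]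
    have hN : (θ.iExs (Fin k)).Realize (fun z : Fin (k + 1) × Bool => j ((z.1 : ℕ), z.2)) := by
      rw [Formula.realize_iExs]
      refine ⟨e, (hθ N _ _).2 fun l => ?_⟩
      have h1 := hφ (tp ((l : ℕ), false)) 0
      have h2 := hφ (tp ((l : ℕ), true)) 0
      have h3 := hcon l
      intro h4
      apply h3
      change χ _ = 0 ↔ (φ 0).Realize (Sum.elim e (fun _ => j ((l : ℕ), false))) at h1
      change χ _ = 0 ↔ (φ 0).Realize (Sum.elim e (fun _ => j ((l : ℕ), true))) at h2
      have h5 : χ (tp ((l : ℕ), false)) = 0 ↔ χ (tp ((l : ℕ), true)) = 0 := by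
        rw [h1, h2]; exact h4
      omega
    have hM : (θ.iExs (Fin k)).Realize (fun z : Fin (k + 1) × Bool => (((z.1 : ℕ), z.2) : M)) :=
      (j.map_formula _ _).1 hN
    rw [Formula.realize_iExs] at hM
    obtain ⟨x, hx⟩ := hM
    rw [hθ] at hx
    obtain ⟨l, hl⟩ : ∃ l : Fin (k + 1), ∀ i, (x i).1 ≠ l := by
      by_contra hno
      push Not at hno
      choose i hi using hno
      have hinj : Function.Injective i := by
        intro l l' hll
        have h1 := hi l
        rw [hll, hi l'] at h1
        exact Fin.ext h1.symm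
      have := Fintype.card_le_of_injective i hinj
      simp at this
    apply hx l
    have h1 := (toAut G _ (swap_mem l)).toElementaryEmbedding.map_formula (φ 0)
      (Sum.elim x (fun _ => ((l : ℕ), false)))
    rw [← h1]
    have h2 : (toAut G _ (swap_mem l)).toElementaryEmbedding ∘
        (Sum.elim x (fun _ => ((l : ℕ), false))) = Sum.elim x (fun _ : Fin 1 => ((l : ℕ), true)) := by
      funext z
      rcases z with z | z
      · exact swap_fix l (x z) (hl z)
      · exact Equiv.swap_apply_left _ _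
    rw [h2]
  obtain ⟨l, hl⟩ := key
  obtain ⟨h⟩ := exists_edge l
  refine ⟨_, ⟨h⟩, χ (tp (l, false)), ?_⟩
  rintro t ⟨s, _, hs⟩
  have h1 : t.1 0 = (s 0 : M) := by rw [hs]
  have h2 : (s 0 : M) = (l, false) ∨ (s 0 : M) = (l, true) := (s 0).2
  have h3 : t = tp (t.1 0) := by
    apply Subtype.ext
    funext i
    have : i = 0 := Subsingleton.elim _ _
    rw [this]
    rfl
  rw [h3, h1]
  rcases h2 with h2 | h2
  · rw [h2]
  · rw [h2, hl]

theorem no_arrowFrom (C : Type) [Lg.Structure C] [Finite C] (f : C ↪[Lg] M) :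
    ¬ ArrowFrom (L := Lg) a M C B := by
  classical
  intro hC
  let C' : Lg.Substructure M := f.toHom.range
  have hCe : Nonempty (C ≃[Lg] C') := ⟨f.equivRange⟩
  have hfin : (C' : Set M).Finite := by
    have h1 : (C' : Set M) = Set.range f := by
      ext x
      simp only [C', SetLike.mem_coe, Hom.mem_range, Set.mem_range]
      rfl
    rw [h1]
    exact Set.finite_range f
  have hfin2 : {m : M | m ∈ C' ∧ m.2 = true}.Finite := hfin.subset (fun m hm => hm.1)
  obtain ⟨k, e, he⟩ : ∃ (k : ℕ) (e : Fin k → M), Set.range e = {m : M | m ∈ C' ∧ m.2 = true} := by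
    have := hfin2.fintype
    obtain ⟨n, ⟨e⟩⟩ := Finite.exists_equiv_fin {m : M | m ∈ C' ∧ m.2 = true}
    refine ⟨n, fun i => (e.symm i : M), ?_⟩
    ext m
    constructor
    · rintro ⟨i, rfl⟩
      exact (e.symm i).2
    · intro hm
      exact ⟨e ⟨m, hm⟩, by simp⟩
  let χ : tupleCopies Lg a M → Fin 2 := fun t =>
    if t.1 0 ∈ Set.range e then 1 else 0
  let φ1 : Lg.Formula (Fin k ⊕ Fin 1) := Formula.iSup (fun i : Fin k =>
    Term.equal (Term.var (Sum.inl i)) (Term.var (Sum.inr 0)))
  have hφ1 : ∀ m : M, φ1.Realize (Sum.elim e (fun _ => m)) ↔ m ∈ Set.range e := by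
    intro m
    simp only [φ1]
    rw [Formula.realize_iSup]
    simp only [Formula.realize_equal, Term.realize_var, Sum.elim_inl, Sum.elim_inr, Set.mem_range]
  have hχ : ExternallyDefinable χ := by
    refine ⟨M, inferInstance, ElementaryEmbedding.refl Lg M, k, e, ![Formula.not φ1, φ1], ?_⟩
    intro t i
    have ht : (fun l => (ElementaryEmbedding.refl Lg M) (t.1 l)) = fun _ : Fin 1 => t.1 0 := by
      funext l
      have : l = 0 := Subsingleton.elim _ _
      rw [this]; rfl
    rw [ht]
    fin_cases i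
    · simp only [χ]
      change _ ↔ (Formula.not φ1).Realize _
      rw [Formula.realize_not, hφ1]
      by_cases h : t.1 0 ∈ Set.range e <;> simp [h]
    · simp only [χ]
      change _ ↔ φ1.Realize _
      rw [hφ1]
      by_cases h : t.1 0 ∈ Set.range e <;> simp [h]
  obtain ⟨B', hB', ⟨h⟩, i, hi⟩ := hC C' hCe χ hχ
  -- the two points of `B'`
  have hfinB : Finite B := by
    have : (({((0, false) : M), (0, true)} : Set M)).Finite := by simp
    exact this
  obtain ⟨g, hg, hgf⟩ := exists_extend G (sub {((0, false) : M), (0, true)})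
    (B'.subtype.comp h.toEmbedding)
  have hb : ∀ b : Bool, g (0, b) ∈ B' := by
    intro b
    have h1 := hgf ⟨(0, b),
      show ((0, b) : M) ∈ ({((0, false) : M), (0, true)} : Set M) by cases b <;> simp⟩
    rw [h1]
    exact (h _).2
  have hχ1 : ∀ m : M, m ∈ B' → χ (tp m) = i := by
    intro m hm
    exact hi (tp m) ⟨fun _ => ⟨m, hm⟩, ⟨ptEmb B' m hm, rfl⟩, rfl⟩
  have h1 : (g (0, false)).1 = (g (0, true)).1 := ((mem_G g).1 hg (0, false) (0, true)).1 rfl
  have h2 : (g (0, false)).2 ≠ (g (0, true)).2 := by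
    intro h3
    have : g (0, false) = g (0, true) := Prod.ext h1 h3
    simpa using g.injective this
  have hχv : ∀ m : M, m ∈ B' → χ (tp m) = if m.2 = true then 1 else 0 := by
    intro m hm
    have hmC : m ∈ C' := hB' hm
    have : (tp m).1 0 ∈ Set.range e ↔ m.2 = true := by
      rw [he]
      exact ⟨fun h => h.2, fun h => ⟨hmC, h⟩⟩
    simp only [χ]
    by_cases h : m.2 = true
    · rw [if_pos (this.2 h), if_pos h]
    · rw [if_neg (fun h' => h (this.1 h')), if_neg h]
  have h3 := hχ1 _ (hb false)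
  have h4 := hχ1 _ (hb true)
  rw [hχv _ (hb false)] at h3
  rw [hχv _ (hb true)] at h4
  rw [← h4] at h3
  cases h5 : (g (0, false)).2 <;> cases h6 : (g (0, true)).2
  · exact h2 (h5.trans h6.symm)
  · rw [h5, h6] at h3; simp at h3
  · rw [h5, h6] at h3; simp at h3
  · exact h2 (h5.trans h6.symm)

end Q202.ExtArrow.Example
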